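import Mathlib
import Pool.Agent.H.MP_8a4838_co.Main

namespace Pool.Agent.Results.MP_8a4838_co.LooseBias

open Finset

/-- A 3-graph on a vertex type: a finite set of 3-element vertex sets. -/
def IsThreeGraph {V : Type} (H : Finset (Finset V)) : Prop := ∀ e ∈ H, e.card = 3

/-- The number of edges containing `v`. -/
def degree {V : Type} [DecidableEq V] (H : Finset (Finset V)) (v : V) : ℕ :=
  (H.filter fun e => v ∈ e).card

/-- The triple at positions `2i, 2i+1, 2i+2` (mod `n`) of a cyclic ordering. -/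
def triple {n : ℕ} (v : ZMod n → Fin n) (i : ℕ) : Finset (Fin n) :=
  {v ((2 * i : ℕ) : ZMod n), v ((2 * i + 1 : ℕ) : ZMod n), v ((2 * i + 2 : ℕ) : ZMod n)}

/-- The cyclic ordering `v` of all vertices is a loose Hamilton cycle of `H`. -/
def IsLooseHamCycle {n : ℕ} (H : Finset (Finset (Fin n))) (v : ZMod n → Fin n) : Prop :=
  Function.Bijective v ∧ ∀ i < n / 2, triple v i ∈ H

/-- The edge set of the loose cycle given by the cyclic ordering `v`. -/
def cycleEdges {n : ℕ} (v : ZMod n → Fin n) : Finset (Finset (Fin n)) :=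
  (range (n / 2)).image (triple v)

theorem result :
    ∀ α : ℝ, 0 < α → ∃ δ : ℝ, 0 < δ ∧ ∃ n₀ : ℕ, ∀ n : ℕ, n₀ ≤ n → Even n →
      ∀ (H : Finset (Finset (Fin n))) (col : Finset (Fin n) → Bool), IsThreeGraph H →
        (∀ v, (7 / 16 + α) * (n.choose 2 : ℝ) ≤ degree H v) →
        ∃ v : ZMod n → Fin n, IsLooseHamCycle H v ∧ ∃ b : Bool,
          (1 / 4 + δ) * n ≤ (((cycleEdges v).filter fun e => col e = b).card : ℝ) := by
  intro α hα
  obtain ⟨δ, hδ, n₀, h⟩ := Pool.Agent.H.MP_8a4838_co.bridge α hα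
  refine ⟨δ, hδ, n₀, fun n hn hev H col h3 hd => ?_⟩
  obtain ⟨v, a1, a2, a3⟩ := h n hn hev H col h3 hd
  exact ⟨v, ⟨a1, a2⟩, a3⟩

end Pool.Agent.Results.MP_8a4838_co.LooseBias
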